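import Pool.Agent.MWLQ.StmtsA

set_option autoImplicit false

/-!
# Squad MWLQ, row FSF (helper43): fill in the special form, period `n` (twin of helper46, MWLE.FSF)
-/

namespace Pool.Agent.MWLQ.H43

open Pool.Agent.Helper14_MV
open Pool.Agent.Helper2_MV (RR)
open Pool.Agent.Helper2_MV
open Pool.Agent.MWGN (Tau)
open Pool.Agent.MWGQ (pw Gn bs ws PwxStmt FspStmt)
open Pool.Agent.MWLQ

variable {β : FIC} {n : ℕ}

theorem dn_app (u v : List ℕ) : dn n (u ++ v) = dn n u ++ dn n v := by
  unfold dn
  rw [List.flatMap_append]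

theorem rp (a c : ℕ) : pw a [c] = List.replicate a c := by
  unfold pw
  induction a with
  | zero => rfl
  | succ a ih => rw [List.replicate_succ, List.flatten_cons, ih, List.replicate_succ]; rfl

theorem dq_cons (Q : ℕ → Bool) (c : ℕ) (v : List ℕ) : dq n Q (c :: v) =
    (if Q c = true then [c] else List.replicate (n + 1) c) ++ dq n Q v := by
  unfold dq
  rw [List.flatMap_cons]

/-- congruence of images -/
theorem fm_congr (l : List ℕ) (f g : ℕ → List ℕ) (h : ∀ i ∈ l, RR β (f i) (g i)) :
    RR β (l.flatMap f) (l.flatMap g) := by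
  induction l with
  | nil => exact RR.refl _
  | cons a l ih =>
    rw [List.flatMap_cons, List.flatMap_cons]
    exact (h a (by simp)).append (ih (fun i hi => h i (by simp [hi])))

/-- lights and contents -/
theorem dec (Q : ℕ → Bool) (v : List ℕ) : ∃ (k : ℕ) (D0 : List ℕ) (z : ℕ → ℕ) (D : ℕ → List ℕ),
    dq n Q v = dn n D0 ++ (List.range k).flatMap (fun i => z i :: dn n (D i)) ∧
    v.filter Q = (List.range k).map z := by
  induction v with
  | nil => exact ⟨0, [], fun _ => 0, fun _ => [], rfl, rfl⟩
  | cons c v ih =>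
    obtain ⟨k, D0, z, D, h1, h2⟩ := ih
    by_cases hq : Q c = true
    · refine ⟨k + 1, [], fun i => Nat.casesOn i c z, fun i => Nat.casesOn i D0 D, ?_, ?_⟩
      · rw [dq_cons, if_pos hq, h1, List.range_succ_eq_map, List.flatMap_cons, List.flatMap_map]
        simp [dn]
      · rw [List.filter_cons_of_pos hq, h2, List.range_succ_eq_map, List.map_cons, List.map_map]
        rfl
    · refine ⟨k, c :: D0, z, D, ?_, ?_⟩
      · rw [dq_cons, if_neg hq, h1]
        simp [dn]
      · rw [List.filter_cons_of_neg hq, h2]

/-- powers of a letter behind the same letter -/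
theorem pcc (hp : PwxStmt) (h : Gn n β) {A : List ℕ} {c : ℕ} (hc : c ∈ A) {a b : ℕ} (ha : 1 ≤ a)
    (hb : 1 ≤ b) (hab : a ≡ b [MOD n]) (B : List ℕ) :
    RR β (A ++ (List.replicate a c ++ B)) (A ++ (List.replicate b c ++ B)) := by
  obtain ⟨A1, A2, rfl⟩ := List.append_of_mem hc
  have h1 := (hp n β h).2.1 [c] A2 a b ha hb hab
  rw [rp, rp] at h1
  have h2 := ((RR.refl (β := β) A1).append h1).append (RR.refl (β := β) B)
  simpa only [List.append_assoc, List.cons_append, List.nil_append] using h2

/-- powers of a letter commute with contents -/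
theorem csw (hp : PwxStmt) (hddc : DdcStmt) (h : Gn n β) {A : List ℕ} {c : ℕ} (hc : c ∈ A)
    (u B : List ℕ) {a : ℕ} (ha : 1 ≤ a) :
    RR β (A ++ (dn n u ++ (List.replicate a c ++ B)))
      (A ++ (List.replicate a c ++ (dn n u ++ B))) := by
  have hn := h.pos
  have hab : a ≡ a + n [MOD n] := by simp [Nat.ModEq]
  have h1 := pcc hp h (A := A ++ dn n u) (List.mem_append_left _ hc) ha (b := a + n) (by omega)
    hab B
  have h2 := (hddc n β h u [c] A B).1 (a + n) (by omega)
  rw [rp] at h2
  have h3 := pcc hp h hc (a := a + n) (b := a) (by omega) ha hab.symm (dn n u ++ B)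
  rw [List.append_assoc, List.append_assoc] at h1
  exact β.trans h1 (β.trans h2 h3)

/-- the lights of both parts -/
def zf (k : ℕ) (z z' : ℕ → ℕ) : ℕ → ℕ := fun i => if i < k then z i else z' (i - k)

/-- the contents of both parts -/
def cf (n k' : ℕ) (D D' : ℕ → List ℕ) (D0' : List ℕ) : ℕ → List ℕ := fun i =>
  if i < k' then dn n (D i) else if i = k' then dn n (D k' ++ D0') else dn n (D' (i - (k' + 1)))

theorem bs_eq (k' l' : ℕ) (z z' : ℕ → ℕ) (D D' : ℕ → List ℕ) (D0' : List ℕ) (c : ℕ) (b : Bool) :
    bs n (fun i => [zf (k' + 1) z z' i]) (cf n k' D D' D0') [c]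
      (fun i => decide (b = true ∧ i = k')) (k' + 1 + l') =
    (List.range k').flatMap (fun i => [z i] ++ pw (n + 1) (dn n (D i))) ++
      (([z k'] ++ (pw (n + 1) (dn n (D k' ++ D0')) ++
          (if b = true then List.replicate (2 * n) c else []))) ++
        (List.range l').flatMap (fun i => [z' i] ++ pw (n + 1) (dn n (D' i)))) := by
  unfold bs
  rw [List.range_add, List.flatMap_append, List.range_succ, List.flatMap_append,
    List.flatMap_singleton, List.flatMap_map, List.append_assoc]
  have e1 : (List.range k').flatMap (fun i => [zf (k' + 1) z z' i] ++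
      (pw (n + 1) (cf n k' D D' D0' i) ++
      (if (fun i => decide (b = true ∧ i = k')) i = true then pw (2 * n) [c] else []))) =
      (List.range k').flatMap (fun i => [z i] ++ pw (n + 1) (dn n (D i))) := by
    apply List.flatMap_congr
    intro i hi
    have hi' : i < k' := List.mem_range.1 hi
    have h1 : zf (k' + 1) z z' i = z i := by unfold zf; rw [if_pos (by omega)]
    have h2 : cf n k' D D' D0' i = dn n (D i) := by unfold cf; rw [if_pos hi']
    rw [h1, h2]
    simp [Nat.ne_of_lt hi']
  have e2 : (List.range l').flatMap (fun i => [zf (k' + 1) z z' (k' + 1 + i)] ++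
      (pw (n + 1) (cf n k' D D' D0' (k' + 1 + i)) ++
        (if (fun i => decide (b = true ∧ i = k')) (k' + 1 + i) = true then pw (2 * n) [c]
          else []))) =
      (List.range l').flatMap (fun i => [z' i] ++ pw (n + 1) (dn n (D' i))) := by
    apply List.flatMap_congr
    intro i hi
    have h1 : zf (k' + 1) z z' (k' + 1 + i) = z' i := by
      unfold zf
      rw [if_neg (by omega)]
      congr 1
      omega
    have h2 : cf n k' D D' D0' (k' + 1 + i) = dn n (D' i) := by
      unfold cf
      rw [if_neg (by omega), if_neg (by omega)]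
      congr 2
      omega
    have h3 : ¬ (k' + 1 + i = k') := by omega
    rw [h1, h2]
    simp [h3]
  have e3 : [zf (k' + 1) z z' k'] ++ (pw (n + 1) (cf n k' D D' D0' k') ++
      (if (fun i => decide (b = true ∧ i = k')) k' = true then pw (2 * n) [c] else [])) =
      [z k'] ++ (pw (n + 1) (dn n (D k' ++ D0')) ++
        (if b = true then List.replicate (2 * n) c else [])) := by
    have h1 : zf (k' + 1) z z' k' = z k' := by unfold zf; rw [if_pos (by omega)]
    have h2 : cf n k' D D' D0' k' = dn n (D k' ++ D0') := by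
      unfold cf; rw [if_neg (by omega), if_pos rfl]
    rw [h1, h2, rp]
    cases b <;> simp
  rw [e1, e3]
  congr 2

/-- normal form -/
theorem nform (hp : PwxStmt) (hddc : DdcStmt) (h : Gn n β) (p q D0 D0' : List ℕ) (c k' l' : ℕ)
    (z z' : ℕ → ℕ) (D D' : ℕ → List ℕ) (τ : List ℕ) (S : ℕ → List ℕ) (R : List ℕ)
    (hq : c :: q = τ.flatMap (fun i => S i ++ [zf (k' + 1) z z' i]) ++ R) (b : Bool) :
    RR β (p ++ (List.replicate (n + 1) c ++ ((dn n D0 ++ (List.range (k' + 1)).flatMap
      (fun i => z i :: dn n (D i))) ++ ((if b = true then List.replicate n c else []) ++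
        ((dn n D0' ++ (List.range (l' + 1)).flatMap (fun i => z' i :: dn n (D' i))) ++ c :: q)))))
      ((p ++ (List.replicate (n + 1) c ++ dn n D0)) ++ (ws n [c] (dn n (D' l')) S
        (fun i => [zf (k' + 1) z z' i]) (cf n k' D D' D0')
        (fun i => decide (b = true ∧ i = k')) τ (k' + 1 + l') ++ R)) := by
  have hn := h.pos
  have m0 : n + 1 ≡ (n + 1) + 2 * n [MOD n] := by simp [Nat.ModEq]
  have m1 : n ≡ 2 * n [MOD n] := by simp [Nat.ModEq]
  have m2 : 1 ≡ 2 * n + 1 [MOD n] := by simp [Nat.ModEq]
  set U := (List.range k').flatMap (fun i => z i :: dn n (D i)) with hU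
  set U' := (List.range l').flatMap (fun i => z' i :: dn n (D' i)) with hU'
  set U2 := (List.range k').flatMap (fun i => [z i] ++ pw (n + 1) (dn n (D i))) with hU2
  set U2' := (List.range l').flatMap (fun i => [z' i] ++ pw (n + 1) (dn n (D' i))) with hU2'
  set e : List ℕ := if b = true then List.replicate n c else [] with he
  set ee : List ℕ := if b = true then List.replicate (2 * n) c else [] with hee
  set E : List ℕ := List.replicate (2 * n) c with hE
  set P : List ℕ := List.replicate (n + 1) c with hP
  have hcP : c ∈ P := List.mem_replicate.2 ⟨by omega, rfl⟩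
  -- the word
  have w0 : p ++ (P ++ ((dn n D0 ++ (List.range (k' + 1)).flatMap
      (fun i => z i :: dn n (D i))) ++ (e ++
        ((dn n D0' ++ (List.range (l' + 1)).flatMap (fun i => z' i :: dn n (D' i))) ++ c :: q)))) =
      p ++ (P ++ (dn n D0 ++ (U ++ ([z k'] ++ (dn n (D k') ++ (e ++ (dn n D0' ++
        (U' ++ ([z' l'] ++ (dn n (D' l') ++ c :: q)))))))))) := by
    rw [List.range_succ, List.flatMap_append, List.flatMap_singleton, List.range_succ,
      List.flatMap_append, List.flatMap_singleton]
    simp only [List.append_assoc, List.cons_append, List.nil_append, hU, hU']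
  rw [w0]
  -- step 1: insert `E` behind `D0`
  have s1 : ∀ W : List ℕ, RR β (p ++ (P ++ (dn n D0 ++ W)))
      (p ++ (P ++ (dn n D0 ++ (E ++ W)))) := by
    intro W
    have a1 := (hp n β h).1 [c] (n + 1) (n + 1 + 2 * n) (by omega) (by omega) m0
    rw [rp, rp, List.replicate_add (n + 1) (2 * n) c, ← hP] at a1
    have a2 := ((RR.refl (β := β) p).append a1).append (RR.refl (β := β) (dn n D0 ++ W))
    have a3 := (csw hp hddc h (A := p ++ P) (c := c) (List.mem_append_right _ hcP) D0 W
      (a := 2 * n) (by omega)).symm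
    simp only [List.append_assoc] at a2 a3
    exact β.trans a2 a3
  -- step 2
  have s2 : ∀ A W : List ℕ, c ∈ A → RR β (A ++ (e ++ (dn n D0' ++ W)))
      (A ++ (dn n D0' ++ (ee ++ W))) := by
    intro A W hA
    cases b with
    | false =>
      simp only [he, hee, Bool.false_eq_true, if_false, List.nil_append]
      exact RR.refl _
    | true =>
      simp only [he, hee, if_true]
      exact β.trans (pcc hp h hA (a := n) (b := 2 * n) (by omega) (by omega) m1 (dn n D0' ++ W))
        (csw hp hddc h hA D0' W (a := 2 * n) (by omega)).symm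
  -- step 3
  have s3 : ∀ A : List ℕ, c ∈ A → RR β (A ++ (dn n (D' l') ++ c :: q))
      (A ++ (E ++ (dn n (D' l') ++ c :: q))) := by
    intro A hA
    have a1 := pcc hp h (A := A ++ dn n (D' l')) (List.mem_append_left _ hA) (a := 1)
      (b := 2 * n + 1) (by omega) (by omega) m2 q
    have a2 := csw hp hddc h hA (D' l') (c :: q) (a := 2 * n) (by omega)
    rw [List.replicate_add] at a1
    simp only [List.append_assoc, List.replicate_one, List.cons_append, List.nil_append] at a1 a2
    exact β.trans a1 a2
  -- step 4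
  have hdd : ∀ (u : List ℕ) (x : ℕ), RR β (x :: dn n u) ([x] ++ pw (n + 1) (dn n u)) := by
    intro u x
    have := (hddc n β h u [] [x] []).2.1
    simpa using this
  have hUU : RR β U U2 := fm_congr _ _ _ (fun i _ => hdd _ _)
  have hUU' : RR β U' U2' := fm_congr _ _ _ (fun i _ => hdd _ _)
  have hM : RR β ([z k'] ++ (dn n (D k') ++ dn n D0'))
      ([z k'] ++ pw (n + 1) (dn n (D k' ++ D0'))) := by
    have := hdd (D k' ++ D0') (z k')
    rw [dn_app] at this ⊢
    simpa using this
  -- all together
  have t1 := s1 (U ++ ([z k'] ++ (dn n (D k') ++ (e ++ (dn n D0' ++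
    (U' ++ ([z' l'] ++ (dn n (D' l') ++ c :: q))))))))
  have t2 := s2 (p ++ (P ++ (dn n D0 ++ (E ++ (U ++ ([z k'] ++ dn n (D k')))))))
    (U' ++ ([z' l'] ++ (dn n (D' l') ++ c :: q))) (by simp [hcP])
  have t3 := s3 (p ++ (P ++ (dn n D0 ++ (E ++ (U ++ ([z k'] ++ (dn n (D k') ++ (dn n D0' ++
    (ee ++ (U' ++ [z' l'])))))))))) (by simp [hcP])
  have t4 := (RR.refl (β := β) (p ++ (P ++ (dn n D0 ++ E)))).append (hUU.append (hM.append
    ((RR.refl (β := β) ee).append (hUU'.append
      (RR.refl (β := β) ([z' l'] ++ (E ++ (dn n (D' l') ++ c :: q))))))))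
  simp only [List.append_assoc] at t1 t2 t3 t4
  have t5 := β.trans t1 (β.trans t2 (β.trans t3 t4))
  -- the normal form
  have h5 : (p ++ (P ++ dn n D0)) ++ (ws n [c] (dn n (D' l')) S (fun i => [zf (k' + 1) z z' i])
      (cf n k' D D' D0') (fun i => decide (b = true ∧ i = k')) τ (k' + 1 + l') ++ R) =
      p ++ (P ++ (dn n D0 ++ (E ++ (U2 ++ ([z k'] ++ (pw (n + 1) (dn n (D k' ++ D0')) ++
        (ee ++ (U2' ++ ([z' l'] ++ (E ++ (dn n (D' l') ++ c :: q))))))))))) := by
    have hz : zf (k' + 1) z z' (k' + 1 + l') = z' l' := by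
      unfold zf
      rw [if_neg (by omega)]
      congr 1
      omega
    unfold ws
    rw [bs_eq]
    simp only [hz, hq, List.append_assoc, hU2, hU2', hee, rp, hE]
  rw [h5]
  exact t5

/-- row FSF -/
theorem fsf (hp : PwxStmt) (hfsp : FspStmt) (htex : MWLE.TexStmt) (hddc : DdcStmt) :
    FsfStmt := by
  intro n β h hF Q p v v' q c hnd hmem
  have hn := h.pos
  obtain ⟨k, D0, z, D, h1, h2⟩ := dec (n := n) Q v
  obtain ⟨l, D0', z', D', h1', h2'⟩ := dec (n := n) Q v'
  rw [h1, h1']
  set P : List ℕ := List.replicate (n + 1) c with hP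
  have hcP : c ∈ P := List.mem_replicate.2 ⟨by omega, rfl⟩
  rcases Nat.eq_zero_or_pos k with hk | hk
  · -- no light in `v`
    subst hk
    simp only [List.range_zero, List.flatMap_nil, List.append_nil]
    have a1 := (hp n β h).1 [c] (n + 1) (n + 1 + n) (by omega) (by omega) (by simp [Nat.ModEq])
    rw [rp, rp, List.replicate_add (n + 1) n c, ← hP] at a1
    have a2 := ((RR.refl (β := β) p).append a1).append (RR.refl (β := β) (dn n D0 ++
      ((dn n D0' ++ (List.range l).flatMap (fun i => z' i :: dn n (D' i))) ++ c :: q)))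
    have a3 := (csw hp hddc h (A := p ++ P) (c := c) (List.mem_append_right _ hcP) D0
      ((dn n D0' ++ (List.range l).flatMap (fun i => z' i :: dn n (D' i))) ++ c :: q)
      (a := n) hn).symm
    simp only [List.append_assoc] at a2 a3 ⊢
    exact β.trans a2 a3
  · rcases Nat.eq_zero_or_pos l with hl | hl
    · -- no light in `v'`
      subst hl
      simp only [List.range_zero, List.flatMap_nil, List.append_nil]
      have hc : c ∈ p ++ (P ++ (dn n D0 ++ (List.range k).flatMap
        (fun i => z i :: dn n (D i)))) := by simp [hcP]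
      have a1 := pcc hp h (A := (p ++ (P ++ (dn n D0 ++ (List.range k).flatMap
        (fun i => z i :: dn n (D i))))) ++ dn n D0') (List.mem_append_left _ hc) (a := 1)
        (b := n + 1) (by omega) (by omega) (by simp [Nat.ModEq]) q
      have a2 := csw hp hddc h hc D0' (c :: q) (a := n) hn
      rw [List.replicate_add] at a1
      simp only [List.append_assoc, List.replicate_one, List.cons_append, List.nil_append]
        at a1 a2 ⊢
      exact β.trans a1 a2
    · obtain ⟨k', rfl⟩ : ∃ k', k = k' + 1 := ⟨k - 1, by omega⟩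
      obtain ⟨l', rfl⟩ : ∃ l', l = l' + 1 := ⟨l - 1, by omega⟩
      have hfil : (v ++ v').filter Q = (List.range (k' + 1 + (l' + 1))).map (zf (k' + 1) z z') := by
        rw [List.filter_append, h2, h2', List.range_add (n := k' + 1) (m := l' + 1), List.map_append,
          List.map_map]
        congr 1
        · apply List.map_congr_left
          intro i hi
          have := List.mem_range.1 hi
          unfold zf
          rw [if_pos this]
        · apply List.map_congr_left
          intro i hi
          show z' i = zf (k' + 1) z z' (k' + 1 + i)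
          unfold zf
          rw [if_neg (by omega)]
          congr 1
          omega
      have hinj : ∀ i ≤ k' + 1 + l', ∀ j ≤ k' + 1 + l',
          zf (k' + 1) z z' i = zf (k' + 1) z z' j → i = j := by
        intro i hi j hj hij
        rw [hfil] at hnd
        exact List.inj_on_of_nodup_map hnd (List.mem_range.2 (by omega))
          (List.mem_range.2 (by omega)) hij
      have hzq : ∀ i ≤ k' + 1 + l', zf (k' + 1) z z' i ∈ c :: q := by
        intro i hi
        have h6 : zf (k' + 1) z z' i ∈ (v ++ v').filter Q := by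
          rw [hfil]
          exact List.mem_map_of_mem (List.mem_range.2 (by omega))
        exact List.mem_cons_of_mem _ (hmem _ (List.mem_filter.1 h6).1 (List.mem_filter.1 h6).2)
      obtain ⟨τ, S, R, hτ, hq⟩ := htex (k' + 1 + l') (zf (k' + 1) z z') (c :: q) hinj hzq
      have n0 := nform hp hddc h p q D0 D0' c k' l' z z' D D' τ S R hq false
      have n1 := nform hp hddc h p q D0 D0' c k' l' z z' D D' τ S R hq true
      have f0 : (fun i : ℕ => decide (false = true ∧ i = k')) = fun _ => false := by
        funext i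
        simp
      rw [f0] at n0
      have g0 := hF (k' + 1 + l') τ hτ [c] (dn n (D' l')) S (fun i => [zf (k' + 1) z z' i])
        (cf n k' D D' D0')
      have g1 := hfsp n β h (k' + 1 + l') (fun m _ τ hτ => hF m τ hτ) τ hτ
        (fun i : ℕ => decide (true = true ∧ i = k')) ⟨k', by omega, by simp⟩ [c] (dn n (D' l')) S
        (fun i => [zf (k' + 1) z z' i]) (cf n k' D D' D0')
      have g2 : RR β _ _ := β.trans g0 g1.symm
      have g3 := (RR.refl (β := β) (p ++ (P ++ dn n D0))).append
        (g2.append (RR.refl (β := β) R))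
      have g4 : RR β _ _ := β.trans n0 (β.trans g3 n1.symm)
      simpa only [Bool.false_eq_true, if_false, if_true, List.nil_append] using g4

end Pool.Agent.MWLQ.H43
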