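import Pool.Agent.MWLQ.StmtsA

/-!
# MWLQ row KFB: facts of the two classes (twin of helper36, MWLE.KFB)
-/

namespace Pool.Agent.MWLQ.H43

open Pool.Agent.Helper14_MV
open Pool.Agent.Helper2_MV (RR)
open Pool.Agent.MWK (pre)
open Pool.Agent.MWGN (nn Tau gh)
open Pool.Agent.MWGQ (pw Z Gn E0 A0 P0)
open Pool.Agent.MWLE (pin sep con tl tll Sg t1 Fc Fb Fy Fx Fu Fz rz sf k0)
open Pool.Agent.MWLQ

theorem nd (m : ℕ) : (0 :: ((List.range (m + 1)).map sep ++ ((List.range (m + 1)).map pin ++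
    (List.range (m + 1)).map con))).Nodup := by
  have hi : ∀ (f : ℕ → ℕ) (r : ℕ), (∀ i, f i = 5 * i + r) → ((List.range (m + 1)).map f).Nodup := by
    intro f r hf
    refine List.Nodup.map ?_ List.nodup_range
    intro a b hab
    rw [hf, hf] at hab
    omega
  refine List.nodup_cons.2 ⟨?_, ?_⟩
  · intro h
    simp only [List.mem_append, List.mem_map, sep, pin, con] at h
    rcases h with ⟨i, _, h⟩ | ⟨i, _, h⟩ | ⟨i, _, h⟩ <;> omega
  · refine List.Nodup.append (hi sep 3 (fun _ => rfl))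
      (List.Nodup.append (hi pin 2 (fun _ => rfl)) (hi con 4 (fun _ => rfl)) ?_) ?_
    · intro c h1 h2
      simp only [List.mem_map, pin, con] at h1 h2
      obtain ⟨i, _, h1⟩ := h1
      obtain ⟨j, _, h2⟩ := h2
      omega
    · intro c h1 h2
      simp only [List.mem_append, List.mem_map, sep, pin, con] at h1 h2
      obtain ⟨i, _, h1⟩ := h1
      rcases h2 with ⟨j, _, h2⟩ | ⟨j, _, h2⟩ <;> omega

/-- row KFB -/
theorem kfb (hFAC : FacStmt) (hXFS : XfsStmt) (hRGX : RgxStmt) (hRGY : RgyStmt)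
    (hRGZ : RgzStmt) (hLEV : LevStmt) (hLER : LerStmt) : KfbStmt := by
  intro n β hG hE hF σ τ m hτ hσ hB hLE W
  have hPk : ¬ (P0 n β ∨ k0 β) := fun h =>
    hLE (hLER n β hG m τ hτ 0 sep pin con (nd m) (hLEV n β hG m τ hτ hB h))
  have hP : ¬ P0 n β := fun h => hPk (Or.inl h)
  have hk : ¬ k0 β := fun h => hPk (Or.inr h)
  obtain ⟨h1, h0⟩ := hXFS n β hG hE hP hk σ τ m hσ W
  constructor
  · intro hK
    obtain ⟨a, b, c⟩ := h1 hK
    have hfc := (hFAC n β hG hE hk σ τ m 1 le_rfl hσ W hK).1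
    refine ⟨hfc, a, b, c, ?_⟩
    by_contra h
    exact hLE (hRGX n β hG σ τ m hτ hσ hB W hK hfc a b c (by omega))
  · intro hK
    obtain ⟨⟨a, b, c⟩, _⟩ := h0 hK
    have hfc := (hFAC n β hG hE hk σ τ m 0 (by omega) hσ W hK).1
    refine ⟨hfc, a, b, c, ?_, ?_⟩
    · by_contra h
      exact hLE (hRGY n β hG σ τ m hτ hσ hB W hK hfc a b c (by omega))
    · by_contra h
      exact hLE (hRGZ n β hG hE hP hk hF σ τ m hτ hσ hB W hK (by omega))

end Pool.Agent.MWLQ.H43
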